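import Pool.Agent.E8helper57.CE.Mixed

/-!
# MP_773c61_co: the critical exponent after adding a dominating vertex

Q1 (`CE_H(G') ≤ CE_H(G) + 1`) with equality for all graphs `G` with an odd cycle transversal of `n`
vertices (a set `K` of `n` vertices such that `G - K` is bipartite) that contain `K_{n+3}^{(1)}`:
`CE_H(G) = n + 1` and `CE_H(G') = n + 2`; more generally for the class `Built n`.
-/

set_option autoImplicit false

open Matrix Finset

namespace Pool.Agent.Results.MP_773c61_co.DominatingVertexH57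

open Pool.Agent.E8helper57.CE

theorem result :
    -- (1) graphs with an odd cycle transversal `K`
    (∀ (V : Type) [Fintype V] (G : SimpleGraph V) (K : Finset V) (col : V → Bool),
      (∀ i j, i ∉ K → j ∉ K → G.Adj i j → col i ≠ col j) →
      ((K.card : ℝ) + 1) ∈ PowSet G ∧ ((K.card : ℝ) + 2) ∈ PowSet (cone G) ∧
      ((KrMinus (K.card + 1)).IsContained G →
        IsCE G ((K.card : ℝ) + 1) ∧ IsCE (cone G) ((K.card : ℝ) + 2))) ∧
    -- (2) graphs built by adding vertices and gluing at cut vertices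
    (∀ (V : Type) [Fintype V] (n : ℕ) (G : SimpleGraph V), Built n G →
      ((n : ℝ) + 1) ∈ PowSet G ∧ ((n : ℝ) + 2) ∈ PowSet (cone G) ∧
      ((KrMinus (n + 1)).IsContained G →
        IsCE G ((n : ℝ) + 1) ∧ IsCE (cone G) ((n : ℝ) + 2))) ∧
    -- (3) all graphs: Q1 for the mixed exponent, and what it gives for `CE_H`
    (∀ (V : Type) [Fintype V] (G : SimpleGraph V) (c : ℝ), 0 ≤ c → Mixed G c →
      c + 1 ∈ PowSet G ∧ Mixed (cone G) (c + 1) ∧ c + 2 ∈ PowSet (cone G)) := by
  have main : ∀ (V : Type) [Fintype V] (n : ℕ) (G : SimpleGraph V), Mixed G n →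
      ((n : ℝ) + 1) ∈ PowSet G ∧ ((n : ℝ) + 2) ∈ PowSet (cone G) ∧
      ((KrMinus (n + 1)).IsContained G →
        IsCE G ((n : ℝ) + 1) ∧ IsCE (cone G) ((n : ℝ) + 2)) := by
    intro V _ n G hG
    have h1 : ((n : ℝ) + 1) ∈ PowSet G := mixed_powSet G hG
    have h2 : ((n : ℝ) + 2) ∈ PowSet (cone G) := by
      have := mixed_powSet (cone G) (mixed_cone G (Nat.cast_nonneg n) hG)
      rwa [add_assoc, one_add_one_eq_two] at this
    refine ⟨h1, h2, fun h => ⟨⟨h1, fun α hα => ?_⟩, ⟨h2, fun α hα => ?_⟩⟩⟩
    · exact lower_of_hasKM G n (hasKM_of_isContained G n h) α hα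
    · have := lower_of_hasKM (cone G) (n + 1) (hasKM_cone (hasKM_of_isContained G n h)) α hα
      push_cast at this
      linarith
  refine ⟨?_, ?_, ?_⟩
  · intro V _ G K col h
    classical
    exact main V K.card G (built_mixed (built_of_transversal col K.card K G rfl h))
  · intro V _ n G h
    exact main V n G (built_mixed h)
  · intro V _ G c hc hG
    refine ⟨mixed_powSet G hG, mixed_cone G hc hG, ?_⟩
    have := mixed_powSet (cone G) (mixed_cone G hc hG)
    rwa [add_assoc, one_add_one_eq_two] at this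

end Pool.Agent.Results.MP_773c61_co.DominatingVertexH57
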