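import Pool.Agent.E8helper27.CB.Low
import Pool.Agent.E8helper42.CB.Plane
import Pool.Agent.E8helper93.CB.Ang
import Pool.Agent.E8helper54.CB.Sphs
import Pool.Agent.E8helper47.CB.LowK

/-! MP_773c61_co: the critical exponent after adding a dominating vertex, for graphs that become,
after removing a set `K` of vertices, a graph glued at cut vertices from bipartite graphs and odd
cycles of length at least five (in particular cones over odd cycles). -/

namespace Pool.Agent.Results.MP_773c61_co.OddCycleBlocksH27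

open E8h27.CB Finset

theorem t_plane : S_PLANE := t_PLANE
theorem t_sphs : S_SPHS := t_SPHS t_ANG

/-- odd cycles are block graphs in the sense of `Blk` -/
theorem blk_cycle (m : ℕ) : Blk (SimpleGraph.cycleGraph (2 * m + 5)) := by
  apply Blk.cyc _ m id Function.injective_id
  intro u v
  rw [SimpleGraph.cycleGraph_adj]
  constructor
  · rintro (h | h)
    · exact ⟨v, Or.inr ⟨rfl, by rw [id, ← h, add_sub_cancel]⟩⟩
    · exact ⟨u, Or.inl ⟨rfl, by rw [id, ← h, add_sub_cancel]⟩⟩
  · rintro ⟨i, ⟨h1, h2⟩ | ⟨h1, h2⟩⟩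
    · right; rw [h1, h2]; simp
    · left; rw [h1, h2]; simp

/-- (1) Let `K` be a set of vertices of a finite graph `G`, possibly empty, such that `G` without
the edges at `K` is in the class `Blk`. Then all entrywise powers `≥ |K| + 2` work for `G'`, and
all powers `≥ |K| + 1` work for `G` if `K` is nonempty. If moreover `G` contains
`K_{|K| + 3}` minus an edge, then `CE_H(G') = |K| + 2`, every exponent that works for `G` is at
least `|K| + 1`, with `CE_H(G) = |K| + 1` for `K` nonempty, and `CE_H(G') ≤ CE_H(G) + 1`.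
(2) For every odd cycle `C` of length at least five `CE_H(C') = 2`, and
`CE_H(C') ≤ CE_H(C) + 1`. -/
theorem result :
    (∀ (V : Type) [Fintype V] (G : SimpleGraph V) (K : Finset V), Blk (minus G K) →
      Good (cone G) ((K.card : ℝ) + 2) ∧ (K.Nonempty → Good G ((K.card : ℝ) + 1)) ∧
      ∀ (S : Finset V) (p q : V), S.card = K.card + 1 →
        (∀ s ∈ S, ∀ t ∈ S, s ≠ t → G.Adj s t) → p ∉ S → q ∉ S → p ≠ q →
        (∀ s ∈ S, G.Adj s p ∧ G.Adj s q) →
        IsCE (cone G) ((K.card : ℝ) + 2) ∧ (∀ a, Good G a → (K.card : ℝ) + 1 ≤ a) ∧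
        (K.Nonempty → IsCE G ((K.card : ℝ) + 1)) ∧
        ∀ c c', IsCE G c → IsCE (cone G) c' → c' ≤ c + 1) ∧
    (∀ m : ℕ, IsCE (cone (SimpleGraph.cycleGraph (2 * m + 5))) 2 ∧
      ∀ c, IsCE (SimpleGraph.cycleGraph (2 * m + 5)) c → (2 : ℝ) ≤ c + 1) := by
  have main : ∀ (V : Type) [Fintype V] (G : SimpleGraph V) (K : Finset V), Blk (minus G K) →
      Good (cone G) ((K.card : ℝ) + 2) ∧ (K.Nonempty → Good G ((K.card : ℝ) + 1)) ∧
      ∀ (S : Finset V) (p q : V), S.card = K.card + 1 →
        (∀ s ∈ S, ∀ t ∈ S, s ≠ t → G.Adj s t) → p ∉ S → q ∉ S → p ≠ q →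
        (∀ s ∈ S, G.Adj s p ∧ G.Adj s q) →
        IsCE (cone G) ((K.card : ℝ) + 2) ∧ (∀ a, Good G a → (K.card : ℝ) + 1 ≤ a) ∧
        (K.Nonempty → IsCE G ((K.card : ℝ) + 1)) ∧
        ∀ c c', IsCE G c → IsCE (cone G) c' → c' ≤ c + 1 := by
    intro V _ G K hG
    have h1 := cone_good t_plane t_sphs G K hG
    refine ⟨h1, fun hK => self_good t_plane t_sphs G K hK hG, ?_⟩
    intro S p q hcard hS hp hq hpq hadj
    have h2 : IsCE (cone G) ((K.card : ℝ) + 2) :=
      ⟨h1, fun a ha => low_cone t_LOWK G K.card S p q hcard hS hp hq hpq hadj a ha⟩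
    have h3 : ∀ a, Good G a → (K.card : ℝ) + 1 ≤ a :=
      low_bound t_LOWK G K.card S p q hcard hS hp hq hpq hadj
    refine ⟨h2, h3, fun hK => ⟨self_good t_plane t_sphs G K hK hG, fun a ha => h3 a ha⟩, ?_⟩
    intro c c' hc hc'
    have h4 := hc'.2 h1
    have h5 := h3 c hc.1
    linarith
  refine ⟨main, ?_⟩
  intro m
  have hG : Blk (minus (SimpleGraph.cycleGraph (2 * m + 5)) ∅) := by
    have : minus (SimpleGraph.cycleGraph (2 * m + 5)) ∅ = SimpleGraph.cycleGraph (2 * m + 5) := by
      ext i j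
      simp [minus]
    rw [this]
    exact blk_cycle m
  have h10 : (1 : Fin (2 * m + 5)) ≠ 0 := by
    intro h
    have := congrArg Fin.val h
    simp at this
  have hne : (0 : Fin (2 * m + 5)) - 1 ≠ 0 + 1 := by
    intro h
    have h1 : (0 : Fin (2 * m + 5)) = 1 + 1 := by
      have h2 := congrArg (fun z => z + 1) h
      simp only [sub_add_cancel, zero_add] at h2
      exact h2
    have h3 : (2 : Fin (2 * m + 5)) = 0 := by
      rw [← one_add_one_eq_two]; exact h1.symm
    have h4 := congrArg Fin.val h3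
    simp at h4
    rw [Nat.mod_eq_of_lt (by omega)] at h4
    omega
  obtain ⟨-, -, h⟩ := main (Fin (2 * m + 5)) (SimpleGraph.cycleGraph (2 * m + 5)) ∅ hG
  obtain ⟨h1, h2, -, -⟩ := h {0} (0 - 1) (0 + 1) (by simp)
    (by
      intro s hs t ht hst
      rw [mem_singleton] at hs ht
      exact absurd (hs.trans ht.symm) hst)
    (by
      rw [mem_singleton]
      intro hh
      apply h10
      have h2 := congrArg (fun z => z + 1) hh
      simp only [sub_add_cancel, zero_add] at h2
      exact h2.symm)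
    (by
      rw [mem_singleton, zero_add]
      exact h10)
    hne
    (by
      intro s hs
      rw [mem_singleton] at hs
      subst hs
      rw [SimpleGraph.cycleGraph_adj, SimpleGraph.cycleGraph_adj]
      constructor
      · left; simp
      · right; simp)
  simp only [card_empty, Nat.cast_zero, zero_add] at h1 h2
  exact ⟨h1, fun c hc => by linarith [h2 c hc.1]⟩

end Pool.Agent.Results.MP_773c61_co.OddCycleBlocksH27
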